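import Mathlib

set_option autoImplicit false

namespace Pool.Agent.Results.MP_096971_nt.PowersOfLog

/-- The base-`b` elated function: leading digit times the sum of the squares of the digits
(`Nat.digits b a` lists the base-`b` digits of `a`, leading digit last). -/
def E (b a : ℕ) : ℕ := (Nat.digits b a).getLastD 0 * ((Nat.digits b a).map (· ^ 2)).sum

/-- `S` is a cycle of `E b`. -/
def IsCycle (b : ℕ) (S : Set ℕ) : Prop :=
  ∃ (k : ℕ) (x : Fin (k + 1) → ℕ), Function.Injective x ∧ (∀ j, 0 < x j) ∧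
    (∀ j, E b (x j) = x (j + 1)) ∧ S = Set.range x

/-- The number of cycles. -/
noncomputable def C (b : ℕ) : ℕ∞ := {S | IsCycle b S}.encard

open Complex in
lemma window (w : ℂ) (hw : ‖w‖ = 1) (hw1 : w ≠ 1) (hsm : ‖w - 1‖ ≤ 0.185) :
    ∃ L : ℕ, 1 ≤ L ∧ ∀ u : ℂ, ‖u‖ = 1 → ∀ J : ℕ, ∃ a : ℕ, J ≤ a ∧ a < J + L ∧
      ‖u * w ^ a - exp (I * ((Real.pi / 3 : ℝ) : ℂ))‖ ≤ 0.1462 := by
  have hpi := Real.pi_pos
  set δ : ℝ := arg w with hδ
  have hwe : w = exp (I * δ) := by
    have h := norm_mul_exp_arg_mul_I w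
    rw [hw] at h
    rw [← h, ofReal_one, one_mul, mul_comm]
  have hδ0 : δ ≠ 0 := by
    intro h
    apply hw1
    rw [hwe, h]; simp
  have hδs : |δ| ≤ 0.2923 := by
    have h1 : ‖w - 1‖ = 2 * |Real.sin (δ / 2)| := by
      rw [hwe, norm_exp_I_mul_ofReal_sub_one, norm_mul, Real.norm_eq_abs, Real.norm_eq_abs,
        abs_of_pos (by norm_num : (0 : ℝ) < 2)]
    have h2 : |δ / 2| ≤ Real.pi / 2 := by
      rw [abs_div, abs_of_pos (by norm_num : (0 : ℝ) < 2)]
      have := abs_arg_le_pi w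
      rw [← hδ] at this
      linarith
    have h3 := Real.mul_abs_le_abs_sin h2
    rw [abs_div, abs_of_pos (by norm_num : (0 : ℝ) < 2)] at h3
    have h4 : 2 / Real.pi * |δ| ≤ 0.185 := by linarith
    have h5 : |δ| ≤ 0.185 * Real.pi / 2 := by
      have : |δ| = (2 / Real.pi * |δ|) * (Real.pi / 2) := by field_simp
      rw [this]
      nlinarith
    have := Real.pi_lt_d2
    linarith
  have hδa : 0 < |δ| := abs_pos.2 hδ0
  set p : ℝ := 2 * Real.pi / |δ| with hp
  have hp0 : 0 < p := by positivity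
  refine ⟨⌈p⌉₊ + 2, by omega, fun u hu J => ?_⟩
  set φ : ℝ := arg u with hφ
  have hue : u = exp (I * φ) := by
    have h := norm_mul_exp_arg_mul_I u
    rw [hu] at h
    rw [← h, ofReal_one, one_mul, mul_comm]
  set T : ℝ := (Real.pi / 3 - φ) / δ with hT
  set m : ℤ := ⌈(J + 1 / 2 - T) / p⌉ with hm
  have hm1 : (J : ℝ) + 1 / 2 ≤ T + m * p := by
    have := Int.le_ceil ((J + 1 / 2 - T) / p)
    rw [← hm, div_le_iff₀ hp0] at this
    linarith
  have hm2 : T + m * p < J + 1 / 2 + p := by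
    have := Int.ceil_lt_add_one ((J + 1 / 2 - T) / p)
    rw [← hm, ← sub_lt_iff_lt_add, lt_div_iff₀ hp0] at this
    linarith
  set a : ℤ := round (T + m * p) with ha
  have hr := abs_sub_round (T + m * p)
  rw [← ha, abs_le] at hr
  have ha0 : (J : ℤ) ≤ a := by
    have : (J : ℝ) ≤ (a : ℝ) := by linarith [hr.2]
    exact_mod_cast this
  obtain ⟨n, hn⟩ := Int.eq_ofNat_of_zero_le (show (0 : ℤ) ≤ a by omega)
  have hnr : (a : ℝ) = n := by rw [hn]; simp
  refine ⟨n, by omega, ?_, ?_⟩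
  · have h1 : (n : ℝ) < J + 1 + p := by rw [← hnr]; linarith [hr.1]
    have h2 := Nat.le_ceil p
    have h3 : (n : ℝ) < J + 1 + ⌈p⌉₊ := by linarith
    have h4 : n < J + 1 + ⌈p⌉₊ := by exact_mod_cast h3
    omega
  · -- the angle
    set ε : ℝ := (n - (T + m * p)) * δ with hε
    have hε1 : |ε| ≤ 0.1462 := by
      rw [hε, abs_mul, ← hnr]
      have : |(a : ℝ) - (T + m * p)| ≤ 1 / 2 := by
        rw [abs_le]; constructor <;> linarith [hr.1, hr.2]
      nlinarith [abs_nonneg ((a : ℝ) - (T + m * p))]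
    obtain ⟨m', hm'⟩ : ∃ m' : ℤ, (m : ℝ) * p * δ = m' * (2 * Real.pi) := by
      rcases lt_or_gt_of_ne hδ0 with h | h
      · refine ⟨-m, ?_⟩
        rw [hp, abs_of_neg h]; push_cast; field_simp
      · refine ⟨m, ?_⟩
        rw [hp, abs_of_pos h]; field_simp
    have hTδ : T * δ = Real.pi / 3 - φ := by rw [hT]; field_simp
    have hang : φ + n * δ = Real.pi / 3 + ε + m' * (2 * Real.pi) := by
      rw [hε]; linear_combination hTδ + hm'
    have h1 : u * w ^ n = exp (I * ((Real.pi / 3 : ℝ) : ℂ)) * exp (I * ε) := by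
      have h3 : ((φ + n * δ : ℝ) : ℂ) = ((Real.pi / 3 + ε + m' * (2 * Real.pi) : ℝ) : ℂ) := by
        rw [hang]
      push_cast at h3
      rw [hue, hwe, ← exp_nat_mul, ← exp_add, ← exp_add]
      rw [show I * (φ : ℂ) + (n : ℂ) * (I * δ) = I * (φ + n * δ) by ring, h3,
        show I * ((Real.pi : ℂ) / 3 + ε + m' * (2 * Real.pi))
          = (I * (((Real.pi / 3 : ℝ) : ℂ)) + I * ε) + m' * (2 * Real.pi * I) by push_cast; ring,
        exp_add _ ((m' : ℂ) * (2 * Real.pi * I)), exp_int_mul_two_pi_mul_I, mul_one]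
    rw [h1]
    have h2 : exp (I * ((Real.pi / 3 : ℝ) : ℂ)) * exp (I * ε) - exp (I * ((Real.pi / 3 : ℝ) : ℂ))
        = exp (I * ((Real.pi / 3 : ℝ) : ℂ)) * (exp (I * ε) - 1) := by ring
    rw [h2, norm_mul, mul_comm I, norm_exp_ofReal_mul_I, one_mul]
    refine (Real.norm_exp_I_mul_ofReal_sub_one_le (x := ε)).trans ?_
    rwa [Real.norm_eq_abs]

abbrev G := GaussianInt

def I : G := ⟨0, 1⟩

lemma I_sq : I * I = -1 := by decide

def f (r : ℤ) : G := 68 * (1 + 4 * I) * (r : G) ^ 2 + 34 * (1 + 2 * I) * r + (19 + 67 * I)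

lemma f_re (r : ℤ) : (f r).re = 68 * r ^ 2 + 34 * r + 19 := by
  simp [f, I, pow_two]

lemma f_im (r : ℤ) : (f r).im = 272 * r ^ 2 + 68 * r + 67 := by
  simp [f, I, pow_two]

lemma cg {R : Type*} [CommRing R] {a b a' b' : R} (h : IsCoprime a b) (ha : a' = a)
    (hb : b' = b) : IsCoprime a' b' := by rw [ha, hb]; exact h

/-- parameters -/
def ee (t : ℕ) : ℤ := 1 + 42126 * t
def pp (t : ℕ) : ℤ := 2 * ee t ^ 2 + 59
def qq (t : ℕ) : ℤ := 2 * ee t
def nn (t : ℕ) : ℤ := pp t ^ 2 + qq t ^ 2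
def P (t : ℕ) : G := pp t + qq t * I
def Q (t : ℕ) : G := pp t - qq t * I

lemma PQ (t : ℕ) : P t * Q t = (nn t : G) := by
  have hI := I_sq
  rw [P, Q, nn]; push_cast; linear_combination (-(qq t : G) ^ 2) * hI

lemma hensel (t : ℕ) (k : ℕ) : (∃ r : ℤ, P t ^ k ∣ f r) ∧ IsCoprime (P t) (Q t) := by
  set e : ℤ := ee t with he'
  have he : e = 1 + 42126 * t := rfl
  set p : ℤ := pp t with hp'
  have hp : p = 2 * e ^ 2 + 59 := rfl
  set q : ℤ := qq t with hq'
  have hq : q = 2 * e := rfl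
  set π : G := P t with hπ'
  have hπ : π = p + q * I := rfl
  set ρ : G := Q t with hρ'
  have hρ : ρ = p - q * I := rfl
  set n : ℤ := nn t with hn'
  have hn : n = p ^ 2 + q ^ 2 := rfl
  set s : ℤ := 2 * e ^ 2 + 60 with hs
  have hI := I_sq
  have hnn : π * ρ = (n : G) := PQ t
  have hns : n = s ^ 2 - 119 := by rw [hn, hp, hq, hs]; ring
  have c2p : IsCoprime (2 : ℤ) p := ⟨-(e ^ 2 + 29), 1, by rw [hp]; ring⟩
  have ce : IsCoprime e 59 := ⟨1, -714 * t, by rw [he]; ring⟩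
  have cep : IsCoprime e p := by
    exact cg (ce.add_mul_left_right (2 * e)) rfl (by rw [hp]; ring)
  have cqp : IsCoprime q p := by rw [hq]; exact c2p.mul_left cep
  have cop : ∀ c : ℤ, IsCoprime n c → IsCoprime π (c : G) := by
    intro c hc
    have := hc.map (Int.castRingHom G)
    simp only [eq_intCast] at this
    rw [← hnn] at this
    exact this.of_mul_left_left
  have s62 : ∃ T : ℤ, s = 62 + 714 * T := ⟨2 * (118 * t + 42126 * 59 * t ^ 2), by
    rw [hs, he]; ring⟩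
  obtain ⟨T, hT⟩ := s62
  have c714 : IsCoprime n 714 := by
    have h0 : IsCoprime (3725 : ℤ) 714 := by norm_num
    exact cg (h0.add_mul_left_left (124 * T + 714 * T ^ 2)) (by rw [hns, hT]; ring) rfl
  have cs : IsCoprime n s := by
    have h0 : IsCoprime (-119 : ℤ) 62 := by norm_num
    have h1 := h0.add_mul_left_right (-6 * T)
    have h2 : IsCoprime (-119 : ℤ) s := cg h1 rfl (by rw [hT]; ring)
    exact cg (h2.add_mul_left_left s) (by rw [hns]; ring) rfl
  have cnp : IsCoprime n p := by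
    exact cg ((cqp.pow_left (m := 2)).add_mul_left_left p) (by rw [hn]; ring) rfl
  have g714 := cop _ c714
  have g2 : IsCoprime π 2 := g714.of_isCoprime_of_dvd_right ⟨357, by norm_num⟩
  have g3 : IsCoprime π 3 := g714.of_isCoprime_of_dvd_right ⟨238, by norm_num⟩
  have g17 : IsCoprime π 17 := g714.of_isCoprime_of_dvd_right ⟨42, by norm_num⟩
  have g4 : IsCoprime π (4 - I) :=
    g17.of_isCoprime_of_dvd_right ⟨4 + I, by linear_combination hI⟩
  have g5 : IsCoprime π (1 + 4 * I) :=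
    g17.of_isCoprime_of_dvd_right ⟨1 - 4 * I, by linear_combination 16 * hI⟩
  have gA : IsCoprime π (2 * (68 * (1 + 4 * I))) := by
    exact cg ((((g2.mul_right g2).mul_right g2).mul_right g17).mul_right g5) rfl (by ring)
  have gD : IsCoprime π (6 * (4 - I) * s) := by
    exact cg (((g2.mul_right g3).mul_right g4).mul_right (cop _ cs)) rfl (by ring)
  have gρ : IsCoprime π ρ := by
    exact cg ((g2.mul_right (cop _ cnp)).add_mul_left_right (-1)) rfl (by rw [hπ, hρ]; ring)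
  have lin : ∀ c d : G, IsCoprime π c → ∃ z : ℤ, π ∣ c * z - d := by
    intro c d ⟨a, b, hab⟩
    obtain ⟨u, v, huv⟩ := cqp
    have huv' : (u : G) * q + v * p = 1 := by exact_mod_cast huv
    have hx : b * d = (b * d).re + (b * d).im * I := by
      apply Zsqrtd.ext <;> simp [I]
    refine ⟨(b * d).re + (b * d).im * (v * q - u * p),
      -(c * (b * d).im * (u + v * I)) - a * d, ?_⟩
    push_cast
    rw [hπ] at hab ⊢
    linear_combination (-c) * hx + d * hab + c * (b * d).im * I * huv'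
      + c * (b * d).im * v * q * hI
  have main : ∀ k : ℕ, ∃ r : ℤ, π ^ (k + 1) ∣ f r ∧
      π ∣ 2 * (68 * (1 + 4 * I)) * r + 34 * (1 + 2 * I) - 6 * (4 - I) * s := by
    intro k
    induction k with
    | zero =>
      obtain ⟨z, w, hz⟩ := lin _ (6 * (4 - I) * s - 34 * (1 + 2 * I)) gA
      refine ⟨z, ?_, ⟨w, by linear_combination hz⟩⟩
      rw [zero_add, pow_one]
      apply (g2.mul_right gA).dvd_of_dvd_mul_left
      refine ⟨w * (π * w + 12 * (4 - I) * s) + 36 * (4 - I) ^ 2 * ρ, ?_⟩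
      have hns' : (n : G) = s ^ 2 - 119 := by exact_mod_cast hns
      rw [f]
      linear_combination
        (2 * (68 * (1 + 4 * I)) * z + 34 * (1 + 2 * I) + 6 * (4 - I) * s + π * w) * hz
        - 36 * (4 - I) ^ 2 * hnn - 36 * (4 - I) ^ 2 * hns' + 72556 * hI
    | succ k ih =>
      obtain ⟨r, ⟨g, hg⟩, ⟨w, hw⟩⟩ := ih
      obtain ⟨z, y, hz⟩ := lin (ρ ^ (k + 1) * (6 * (4 - I) * s)) (-g)
        (gρ.pow_right.mul_right gD)
      have hk : (n : G) ^ (k + 1) = π ^ (k + 1) * ρ ^ (k + 1) := by rw [← hnn, mul_pow]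
      refine ⟨r + n ^ (k + 1) * z, ⟨y + ρ ^ (k + 1) * z * w
        + 68 * (1 + 4 * I) * π ^ k * (ρ ^ (k + 1)) ^ 2 * z ^ 2, ?_⟩,
        ⟨w + 2 * (68 * (1 + 4 * I)) * π ^ k * ρ ^ (k + 1) * z, ?_⟩⟩
      · simp only [f] at hg ⊢
        push_cast
        rw [hk]
        linear_combination hg + π ^ (k + 1) * hz + π ^ (k + 1) * ρ ^ (k + 1) * z * hw
      · push_cast
        rw [hk]
        linear_combination hw
  refine ⟨?_, gρ⟩
  obtain ⟨r, hg, -⟩ := main k
  exact ⟨r, (pow_dvd_pow π (Nat.le_succ k)).trans hg⟩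

lemma fixed (b y z : ℕ) (hb : 2 < b) (hy : y < b) (hz : z < b)
    (h : 2 * (z ^ 2 + y ^ 2 + 4) = z + b * (y + b * 2)) :
    E b (z + b * (y + b * 2)) = z + b * (y + b * 2) := by
  have d : Nat.digits b (z + b * (y + b * 2)) = [z, y, 2] := by
    rw [Nat.digits_add b (by omega) z _ hz (Or.inr (by omega)),
      Nat.digits_add b (by omega) y _ hy (Or.inr (by omega)),
      Nat.digits_of_lt b 2 (by omega) hb]
  rw [E, d, ← h]
  simp; ring

lemma nn_pos (t : ℕ) : 1 < nn t := by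
  have h0 : 1 ≤ ee t := by unfold ee; omega
  have h1 : 61 ≤ pp t := by unfold pp; nlinarith
  unfold nn
  nlinarith [sq_nonneg (qq t)]

/-- pairwise coprime moduli -/
lemma exists_moduli : ∃ t : ℕ → ℕ, ∀ i j, i ≠ j → IsCoprime (nn (t i)) (nn (t j)) := by
  obtain ⟨t, -, ht⟩ := exists_seq_of_forall_finset_exists'
    (fun t : ℕ => IsCoprime (nn t) 3725) (fun a b : ℕ => IsCoprime (nn a) (nn b))
    (fun S hS => by
      set M : ℤ := ∏ x ∈ S, nn x with hM
      have hM0 : 0 < M := Finset.prod_pos fun x _ => by linarith [nn_pos x]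
      have hcM : IsCoprime M 3725 := IsCoprime.prod_left fun x hx => hS x hx
      have h745 : IsCoprime M 745 := hcM.of_isCoprime_of_dvd_right ⟨5, by norm_num⟩
      have h4 : IsCoprime (42126 : ℤ) 745 := by norm_num
      obtain ⟨u, v, huv⟩ := h4.mul_left h745
      set c : ℤ := (-u) % 745 with hc
      have hc0 : 0 ≤ c := Int.emod_nonneg _ (by norm_num)
      have hcd : (745 : ℤ) ∣ c + u := by
        have h := Int.emod_add_mul_ediv (-u) 745
        refine ⟨-((-u) / 745), ?_⟩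
        rw [hc]; linarith
      obtain ⟨w, hw⟩ := hcd
      have ht : (((M * c).toNat : ℕ) : ℤ) = M * c := Int.toNat_of_nonneg (by positivity)
      refine ⟨(M * c).toNat, ?_, ?_⟩
      · have he : ee (M * c).toNat = 745 * (v + 42126 * M * w) := by
          unfold ee
          rw [ht]
          have hcw : c = 745 * w - u := by linarith
          rw [hcw]
          linear_combination -huv
        set g : ℤ := v + 42126 * M * w with hg
        have hn : nn (M * c).toNat = 3481 + 745 * (745 * g ^ 2 * (4 * 745 ^ 2 * g ^ 2 + 240)) := by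
          unfold nn pp qq
          rw [he]; ring
        have h0 : IsCoprime (3481 : ℤ) 745 := by norm_num
        have h1 : IsCoprime (nn (M * c).toNat) 745 := by
          rw [hn]; exact h0.add_mul_left_left _
        have h2 : IsCoprime (nn (M * c).toNat) 5 := h1.of_isCoprime_of_dvd_right ⟨149, by norm_num⟩
        exact cg (h1.mul_right h2) rfl (by norm_num)
      · intro x hx
        have hxM : nn x ∣ M := Finset.dvd_prod_of_mem _ hx
        obtain ⟨y, hy⟩ := hxM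
        have hn : nn (M * c).toNat = 3725 + M * (c * 42126 * (2 + 42126 * (M * c)) *
            (4 * ((1 + 42126 * (M * c)) ^ 2 + 1) + 240)) := by
          unfold nn pp qq ee
          rw [ht]; ring
        rw [hn, hy, mul_assoc]
        exact ((hS x hx).add_mul_left_right _)) 
  exact ⟨t, fun i j hij => ht hij⟩

/-- Chinese remainder theorem -/
lemma crt (N ρ : ℕ → ℤ) (S : Finset ℕ) (h : ∀ i ∈ S, ∀ j ∈ S, i ≠ j → IsCoprime (N i) (N j)) :
    ∃ r : ℤ, ∀ i ∈ S, N i ∣ r - ρ i := by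
  classical
  induction S using Finset.induction_on with
  | empty => exact ⟨0, by simp⟩
  | insert a S ha ih =>
    obtain ⟨r, hr⟩ := ih fun i hi j hj => h i (Finset.mem_insert_of_mem hi) j
      (Finset.mem_insert_of_mem hj)
    have hc : IsCoprime (N a) (∏ i ∈ S, N i) := IsCoprime.prod_right fun i hi =>
      h a (Finset.mem_insert_self _ _) i (Finset.mem_insert_of_mem hi) (by rintro rfl; exact ha hi)
    obtain ⟨u, v, huv⟩ := hc
    refine ⟨r + v * (∏ i ∈ S, N i) * (ρ a - r), fun i hi => ?_⟩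
    rcases Finset.mem_insert.1 hi with rfl | hi
    · exact ⟨u * (r - ρ i), by linear_combination (ρ i - r) * huv⟩
    · have h1 : N i ∣ ∏ i ∈ S, N i := Finset.dvd_prod_of_mem _ hi
      have h2 : r + v * (∏ i ∈ S, N i) * (ρ a - r) - ρ i
          = (r - ρ i) + (∏ i ∈ S, N i) * (v * (ρ a - r)) := by ring
      rw [h2]
      exact dvd_add (hr i hi) (h1.mul_right _)


/-- the Gaussian integers of norm `17 b ^ 2 - 63` -/
def X {s : ℕ} (t : ℕ → ℕ) (k : ℕ) (γ : G) (a : ℕ) (j : Fin s → Fin (k + 1)) : G :=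
  P (t s) ^ (k - a) * Q (t s) ^ a *
    (∏ i : Fin s, (P (t i) ^ (k - (j i : ℕ)) * Q (t i) ^ (j i : ℕ))) * γ

lemma X_map {M : Type*} [CommMonoid M] (φ : G →* M) (h : ∀ t, φ (P t) = φ (Q t))
    {s : ℕ} (t : ℕ → ℕ) (k : ℕ) (γ : G) (a : ℕ) (ha : a ≤ k) (j : Fin s → Fin (k + 1)) :
    φ (X t k γ a j) = φ ((∏ i ∈ Finset.range (s + 1), P (t i) ^ k) * γ) := by
  have h1 : ∀ u a : ℕ, a ≤ k → φ (P u) ^ (k - a) * φ (Q u) ^ a = φ (P u) ^ k := by
    intro u a ha
    rw [← h, ← pow_add, Nat.sub_add_cancel ha]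
  unfold X
  rw [Finset.prod_range_succ, Finset.prod_range]
  simp only [map_mul, map_prod, map_pow]
  rw [h1 _ _ ha, Finset.prod_congr rfl fun i _ => h1 _ _ (Nat.lt_succ_iff.1 (j i).2)]
  congr 1
  rw [mul_comm]

lemma norm_P (t : ℕ) : (P t).norm = nn t := by
  simp [P, nn, I, Zsqrtd.norm_def]; ring

lemma norm_Q (t : ℕ) : (Q t).norm = nn t := by
  simp [Q, nn, I, Zsqrtd.norm_def]; ring

lemma exists_root (t : ℕ → ℕ) (ht : ∀ i j, i ≠ j → IsCoprime (nn (t i)) (nn (t j)))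
    (s k : ℕ) : ∃ r : ℤ, (∏ i ∈ Finset.range (s + 1), nn (t i)) ^ k ≤ r ∧ r ≤ 2 * (∏ i ∈ Finset.range (s + 1), nn (t i)) ^ k ∧
      ∃ γ : G, f r = (∏ i ∈ Finset.range (s + 1), P (t i) ^ k) * γ := by
  choose ρ hρ using fun i => (hensel (t i) k).1
  obtain ⟨r, hr⟩ := crt (fun i => nn (t i) ^ k) ρ (Finset.range (s + 1))
    (fun i _ j _ hij => (ht i j hij).pow)
  set N : ℤ := (∏ i ∈ Finset.range (s + 1), nn (t i)) ^ k with hN
  have hN0 : 0 < N := by
    rw [hN]; exact pow_pos (Finset.prod_pos fun i _ => by linarith [nn_pos (t i)]) k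
  have hNd : ∀ i ∈ Finset.range (s + 1), nn (t i) ^ k ∣ N := by
    intro i hi
    rw [hN]
    exact pow_dvd_pow_of_dvd (Finset.dvd_prod_of_mem _ hi) k
  refine ⟨r % N + N, by have := Int.emod_nonneg r hN0.ne'; omega,
    by have := Int.emod_lt_of_pos r hN0; omega, ?_⟩
  set r' : ℤ := r % N + N with hr'
  have h1 : N ∣ r' - r := by
    have := Int.emod_add_mul_ediv r N
    exact ⟨1 - r / N, by rw [hr']; linear_combination this⟩
  have h2 : ∀ i ∈ Finset.range (s + 1), P (t i) ^ k ∣ f r' := by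
    intro i hi
    have h3 : nn (t i) ^ k ∣ r' - ρ i := by
      have := dvd_add ((hNd i hi).trans h1) (hr i hi)
      simpa using this
    obtain ⟨c, hc⟩ := h3
    have hcG : (r' : G) - ρ i = P (t i) ^ k * Q (t i) ^ k * c := by
      rw [← mul_pow, PQ]
      exact_mod_cast hc
    obtain ⟨g, hg⟩ := hρ i
    refine ⟨g + Q (t i) ^ k * c * (68 * (1 + 4 * I) * (r' + ρ i) + 34 * (1 + 2 * I)), ?_⟩
    simp only [f] at hg ⊢
    linear_combination hg + (68 * (1 + 4 * I) * ((r' : G) + ρ i) + 34 * (1 + 2 * I)) * hcG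
  apply Finset.prod_dvd_of_coprime _ h2
  intro i _ j _ hij
  have h4 := (ht i j hij).map (Int.castRingHom G)
  simp only [eq_intCast] at h4
  rw [← PQ, ← PQ] at h4
  exact h4.of_mul_left_left.of_mul_right_left.pow

/-- distinct exponents give distinct Gaussian integers -/
lemma X_inj (t : ℕ → ℕ) (ht : ∀ i j, i ≠ j → IsCoprime (nn (t i)) (nn (t j)))
    {s : ℕ} (k : ℕ) (γ : G) (hγ : γ ≠ 0) (a a' : ℕ) (ha : a ≤ k) (ha' : a' ≤ k)
    (j j' : Fin s → Fin (k + 1)) (h : X t k γ a j = X t k γ a' j') : a = a' ∧ j = j' := by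
  classical
  -- all exponents as one function on `range (s + 1)`
  let J : ℕ → (Fin s → Fin (k + 1)) → ℕ → ℕ := fun a j i => if h : i < s then (j ⟨i, h⟩ : ℕ) else a
  have hX : ∀ (a : ℕ) (j : Fin s → Fin (k + 1)), X t k γ a j =
      (∏ i ∈ Finset.range (s + 1), (P (t i) ^ (k - J a j i) * Q (t i) ^ (J a j i))) * γ := by
    intro a j
    unfold X
    rw [Finset.prod_range_succ, Finset.prod_range]
    have h1 : J a j s = a := by simp [J]
    have h2 : ∀ i : Fin s, J a j i = (j i : ℕ) := fun i => by simp [J]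
    simp only [h1, h2]
    ring
  have hJ : ∀ (a : ℕ) (j : Fin s → Fin (k + 1)), a ≤ k → ∀ i, J a j i ≤ k := by
    intro a j ha i
    simp only [J]
    split_ifs with h
    · exact Nat.lt_succ_iff.1 (j _).2
    · exact ha
  have key : ∀ u v : ℕ → ℕ, (∀ i, u i ≤ k) → (∀ i, v i ≤ k) →
      (∏ i ∈ Finset.range (s + 1), (P (t i) ^ (k - u i) * Q (t i) ^ (u i))) =
      (∏ i ∈ Finset.range (s + 1), (P (t i) ^ (k - v i) * Q (t i) ^ (v i))) →
      ∀ l ∈ Finset.range (s + 1), v l ≤ u l := by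
    intro u v hu hv huv l hl
    by_contra hlt
    rw [not_le] at hlt
    have hcop : ∀ i, i ≠ l → IsCoprime (P (t l)) (P (t i) * Q (t i)) := by
      intro i hi
      have h4 := (ht l i hi.symm).map (Int.castRingHom G)
      simp only [eq_intCast] at h4
      rw [← PQ (t l), ← PQ (t i)] at h4
      exact h4.of_mul_left_left
    have hPu : P (t l) ^ (k - u l) ∣
        (∏ i ∈ Finset.range (s + 1), (P (t i) ^ (k - v i) * Q (t i) ^ (v i))) := by
      rw [← huv]
      exact (dvd_mul_right _ _).trans (Finset.dvd_prod_of_mem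
        (fun i => P (t i) ^ (k - u i) * Q (t i) ^ (u i)) hl)
    rw [← Finset.mul_prod_erase _ _ hl] at hPu
    have hc2 : IsCoprime (P (t l) ^ (k - u l)) (∏ i ∈ (Finset.range (s + 1)).erase l,
        (P (t i) ^ (k - v i) * Q (t i) ^ (v i))) := by
      refine IsCoprime.prod_right fun i hi => ?_
      have h5 := hcop i (Finset.ne_of_mem_erase hi)
      exact (h5.of_mul_right_left.pow.mul_right h5.of_mul_right_right.pow)
    have hd1 := hc2.dvd_of_dvd_mul_right hPu
    have hc3 : IsCoprime (P (t l) ^ (k - u l)) (Q (t l) ^ (v l)) := (hensel (t l) 0).2.pow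
    have hd2 := hc3.dvd_of_dvd_mul_right hd1
    have hnorm : (P (t l) ^ (k - u l)).norm ∣ (P (t l) ^ (k - v l)).norm :=
      map_dvd (Zsqrtd.normMonoidHom (d := -1)) hd2
    have hpow : ∀ m : ℕ, (P (t l) ^ m).norm = nn (t l) ^ m := by
      intro m
      rw [← norm_P]
      exact map_pow (Zsqrtd.normMonoidHom (d := -1)) (P (t l)) m
    rw [hpow, hpow] at hnorm
    have h1 := Int.le_of_dvd (pow_pos (by linarith [nn_pos (t l)]) _) hnorm
    have h2 : k - u l ≤ k - v l := (pow_le_pow_iff_right₀ (nn_pos (t l))).1 h1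
    have := hv l
    omega
  rw [hX, hX] at h
  have h' := mul_right_cancel₀ hγ h
  have e1 := key _ _ (hJ a j ha) (hJ a' j' ha') h'
  have e2 := key _ _ (hJ a' j' ha') (hJ a j ha) h'.symm
  have e : ∀ l ∈ Finset.range (s + 1), J a j l = J a' j' l := fun l hl =>
    le_antisymm (e2 l hl) (e1 l hl)
  constructor
  · have := e s (by simp)
    simpa [J] using this
  · funext i
    have := e i (Finset.mem_range.2 (by omega))
    simp only [J, i.2, dif_pos] at this
    exact Fin.ext (by simpa using this)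


/-- the Gaussian integers in the good sector -/
def Good (b : ℤ) (x : G) : Prop :=
  0 < x.re ∧ x.re ^ 2 < 9 * b ^ 2 ∧ 0 < x.im ∧ x.im ^ 2 < (4 * b - 1) ^ 2

lemma good_of (x : G) (b : ℤ) (hb : 103 ≤ b) (hN : x.re ^ 2 + x.im ^ 2 = 17 * b ^ 2 - 63)
    (v : ℂ) (R : ℝ) (hR : 0 < R) (hx : GaussianInt.toComplex x = R * v) (hv1 : ‖v‖ = 1)
    (hv : ‖v - Complex.exp (Complex.I * ((Real.pi / 3 : ℝ) : ℂ))‖ ≤ 0.1462) : Good b x := by
  have hre : (x.re : ℝ) = R * v.re := by
    have := congrArg Complex.re hx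
    rw [← GaussianInt.intCast_re] at this
    simpa using this
  have him : (x.im : ℝ) = R * v.im := by
    have := congrArg Complex.im hx
    rw [← GaussianInt.intCast_im] at this
    simpa using this
  have hvv : v.re ^ 2 + v.im ^ 2 = 1 := by
    have h := Complex.sq_norm v
    rw [hv1, Complex.normSq_apply] at h
    linarith
  have hNr : (x.re : ℝ) ^ 2 + (x.im : ℝ) ^ 2 = 17 * (b : ℝ) ^ 2 - 63 := by exact_mod_cast hN
  have hR2 : R ^ 2 = 17 * (b : ℝ) ^ 2 - 63 := by
    rw [← hNr, hre, him]; linear_combination (-(R ^ 2)) * hvv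
  have hbr : (103 : ℝ) ≤ b := by exact_mod_cast hb
  set ω := Complex.exp (Complex.I * ((Real.pi / 3 : ℝ) : ℂ)) with hω
  have hωre : ω.re = 1 / 2 := by
    rw [hω, mul_comm, Complex.exp_ofReal_mul_I_re, Real.cos_pi_div_three]
  have hωim : ω.im = √3 / 2 := by
    rw [hω, mul_comm, Complex.exp_ofReal_mul_I_im, Real.sin_pi_div_three]
  have h1 := (Complex.abs_re_le_norm (v - ω)).trans hv
  have h2 := (Complex.abs_im_le_norm (v - ω)).trans hv
  rw [Complex.sub_re, hωre, abs_le] at h1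
  rw [Complex.sub_im, hωim, abs_le] at h2
  have h3 : (1.7 : ℝ) ≤ √3 := Real.le_sqrt_of_sq_le (by norm_num)
  have hre1 : 0.3538 ≤ v.re := by linarith [h1.1]
  have hre2 : v.re ≤ 0.6462 := by linarith [h1.2]
  have him1 : 0 < v.im := by linarith [h2.1]
  have hq1 : v.re ^ 2 ≤ 0.42 := by nlinarith
  have hq2 : 0.125 ≤ v.re ^ 2 := by nlinarith
  have hRp : 0 < R ^ 2 := by positivity
  refine ⟨?_, ?_, ?_, ?_⟩
  · have : (0 : ℝ) < x.re := by rw [hre]; exact mul_pos hR (by linarith)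
    exact_mod_cast this
  · have : (x.re : ℝ) ^ 2 < 9 * (b : ℝ) ^ 2 := by
      rw [hre, mul_pow]
      have : R ^ 2 * v.re ^ 2 ≤ R ^ 2 * 0.42 := mul_le_mul_of_nonneg_left hq1 hRp.le
      rw [hR2] at this ⊢
      nlinarith
    exact_mod_cast this
  · have : (0 : ℝ) < x.im := by rw [him]; exact mul_pos hR him1
    exact_mod_cast this
  · have : (x.im : ℝ) ^ 2 < (4 * (b : ℝ) - 1) ^ 2 := by
      have e : v.im ^ 2 = 1 - v.re ^ 2 := by linarith
      rw [him, mul_pow, e]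
      have : R ^ 2 * (1 - v.re ^ 2) ≤ R ^ 2 * 0.875 :=
        mul_le_mul_of_nonneg_left (by linarith) hRp.le
      rw [hR2] at this ⊢
      nlinarith
    exact_mod_cast this

lemma point (r : ℤ) (b : ℤ) (hb : b = 68 * r ^ 2 + 18 * r + 17) (hb1 : 103 ≤ b) (x : G)
    (h4 : (4 : G) ∣ x - f r) (hN : x.re ^ 2 + x.im ^ 2 = 17 * b ^ 2 - 63) (hg : Good b x) :
    ∃ y z : ℕ, y < b.toNat ∧ z < b.toNat ∧ (4 * z : ℤ) = x.im + 1 ∧ (4 * y : ℤ) = x.re + b ∧
      2 * (z ^ 2 + y ^ 2 + 4) = z + b.toNat * (y + b.toNat * 2) := by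
  obtain ⟨g1, g2, g3, g4⟩ := hg
  obtain ⟨w, hw⟩ := h4
  have h1 := congrArg Zsqrtd.re hw
  have h2 := congrArg Zsqrtd.im hw
  simp [f_re, f_im] at h1 h2
  have u3 : x.re < 3 * b := by
    apply lt_of_pow_lt_pow_left₀ 2 (by linarith)
    linarith [g2, mul_pow (3 : ℤ) b 2]
  have v3 : x.im < 4 * b - 1 := lt_of_pow_lt_pow_left₀ 2 (by linarith) g4
  obtain ⟨y, hy⟩ : ∃ y : ℕ, (4 * y : ℤ) = x.re + b :=
    ⟨(w.re + 34 * r ^ 2 + 13 * r + 9).toNat, by
      rw [Int.toNat_of_nonneg (by linarith)]; linarith⟩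
  obtain ⟨z, hz⟩ : ∃ z : ℕ, (4 * z : ℤ) = x.im + 1 :=
    ⟨(w.im + 68 * r ^ 2 + 17 * r + 17).toNat, by
      rw [Int.toNat_of_nonneg (by linarith)]; linarith⟩
  refine ⟨y, z, by omega, by omega, hz, hy, ?_⟩
  have hbb : ((b.toNat : ℕ) : ℤ) = b := Int.toNat_of_nonneg (by omega)
  zify
  rw [hbb]
  have e2 : x.re = 4 * y - b := by linarith
  have e3 : x.im = 4 * z - 1 := by linarith
  rw [e2, e3] at hN
  linarith

lemma mod4 (t : ℕ) : (Ideal.Quotient.mk (Ideal.span {(4 : G)})) (P t)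
    = (Ideal.Quotient.mk (Ideal.span {(4 : G)})) (Q t) := by
  rw [Ideal.Quotient.eq, Ideal.mem_span_singleton]
  refine ⟨ee t * I, ?_⟩
  rw [P, Q, qq]; push_cast; ring

lemma window_t (t : ℕ) : ∃ w : ℂ, ‖w‖ = 1 ∧ GaussianInt.toComplex (P t) ≠ 0 ∧
    GaussianInt.toComplex (Q t) = GaussianInt.toComplex (P t) * w ∧
    ∃ L : ℕ, 1 ≤ L ∧ ∀ u : ℂ, ‖u‖ = 1 → ∀ J : ℕ, ∃ a : ℕ, J ≤ a ∧ a < J + L ∧
      ‖u * w ^ a - Complex.exp (Complex.I * ((Real.pi / 3 : ℝ) : ℂ))‖ ≤ 0.1462 := by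
  have hn : ∀ x : G, x.norm = nn t → ‖GaussianInt.toComplex x‖ ^ 2 = nn t := by
    intro x hx
    rw [Complex.sq_norm, ← GaussianInt.intCast_real_norm, hx]
  have hP := hn _ (norm_P t)
  have hQ := hn _ (norm_Q t)
  have hnn : (0 : ℝ) < nn t := by exact_mod_cast (by linarith [nn_pos t] : (0 : ℤ) < nn t)
  have hP0 : GaussianInt.toComplex (P t) ≠ 0 := by
    intro h
    rw [h, norm_zero] at hP
    norm_num at hP
    linarith
  have he : 1 ≤ ee t := by unfold ee; omega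
  have her : (1 : ℝ) ≤ ee t := by exact_mod_cast he
  have hPn : (pp t : ℝ) ≤ ‖GaussianInt.toComplex (P t)‖ := by
    have h1 : (pp t : ℝ) ^ 2 ≤ ‖GaussianInt.toComplex (P t)‖ ^ 2 := by
      rw [hP]
      have : pp t ^ 2 ≤ nn t := by unfold nn; nlinarith [sq_nonneg (qq t)]
      exact_mod_cast this
    exact le_of_sq_le_sq h1 (norm_nonneg _)
  have hp0 : (0 : ℝ) < pp t := by
    have : 0 < pp t := by unfold pp; nlinarith
    exact_mod_cast this
  have hPpos : 0 < ‖GaussianInt.toComplex (P t)‖ := norm_pos_iff.2 hP0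
  have hnorm : ‖GaussianInt.toComplex (Q t)‖ = ‖GaussianInt.toComplex (P t)‖ := by
    rw [← sq_eq_sq₀ (norm_nonneg _) (norm_nonneg _), hP, hQ]
  have hdiff : GaussianInt.toComplex (Q t) - GaussianInt.toComplex (P t)
      = GaussianInt.toComplex (Q t - P t) := by rw [map_sub]
  have hQP : Q t - P t = ⟨0, -2 * qq t⟩ := by
    apply Zsqrtd.ext
    · simp [P, Q, I]
    · simp [P, Q, I]; ring
  have hdn : ‖GaussianInt.toComplex (Q t) - GaussianInt.toComplex (P t)‖ = 4 * ee t := by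
    rw [hdiff, hQP, GaussianInt.toComplex_def']
    have h1 : (((0 : ℤ) : ℂ) + ((-2 * qq t : ℤ) : ℂ) * Complex.I)
        = ((-(4 * (ee t : ℝ)) : ℝ) : ℂ) * Complex.I := by
      rw [qq]; push_cast; ring
    rw [h1, norm_mul, Complex.norm_I, mul_one, Complex.norm_real, norm_neg, Real.norm_eq_abs,
      abs_of_pos (by linarith)]
  refine ⟨GaussianInt.toComplex (Q t) / GaussianInt.toComplex (P t), ?_, hP0, ?_, ?_⟩
  · rw [norm_div, hnorm, div_self hPpos.ne']
  · field_simp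
  · apply window
    · rw [norm_div, hnorm, div_self hPpos.ne']
    · intro h
      rw [div_eq_one_iff_eq hP0] at h
      rw [h, sub_self, norm_zero] at hdn
      linarith
    · have h1 : GaussianInt.toComplex (Q t) / GaussianInt.toComplex (P t) - 1
          = (GaussianInt.toComplex (Q t) - GaussianInt.toComplex (P t)) / GaussianInt.toComplex (P t) := by
        field_simp
      rw [h1, norm_div, hdn, div_le_iff₀ hPpos]
      have h2 : (4 : ℝ) * ee t ≤ 0.185 * pp t := by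
        unfold pp
        push_cast
        nlinarith [sq_nonneg ((ee t : ℝ) - 5.4)]
      nlinarith


lemma many (s : ℕ) : ∃ (N : ℤ) (L : ℕ), 2 ≤ N ∧ 1 ≤ L ∧ ∀ k : ℕ, ∃ b : ℕ, 103 ≤ b ∧
    N ^ k ≤ (b : ℤ) ∧ (b : ℤ) ≤ 412 * N ^ (2 * k) ∧ ∃ S : Finset ℕ,
      S.card = ((k + 1) / L) * (k + 1) ^ s ∧ ∀ a ∈ S, 0 < a ∧ E b a = a := by
  classical
  obtain ⟨t, ht⟩ := exists_moduli
  obtain ⟨w, hw, hP0, hQw, L, hL, hwin⟩ := window_t (t s)
  set N : ℤ := ∏ i ∈ Finset.range (s + 1), nn (t i) with hNdef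
  have hN0 : 0 < N := Finset.prod_pos fun i _ => by linarith [nn_pos (t i)]
  have hN2 : 2 ≤ N := by
    have h1 : nn (t s) ∣ N := by
      rw [hNdef]
      exact Finset.dvd_prod_of_mem (fun i => nn (t i)) (Finset.mem_range.2 (Nat.lt_succ_self s))
    have h2 := Int.le_of_dvd hN0 h1
    have h3 := nn_pos (t s)
    omega
  refine ⟨N, L, hN2, hL, fun k => ?_⟩
  obtain ⟨r, hr1, hr2, γ, hγ⟩ := exists_root t ht s k
  rw [← hNdef] at hr1 hr2
  have hNk : 0 < N ^ k := pow_pos hN0 k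
  have hr0 : 1 ≤ r := by omega
  set b : ℤ := 68 * r ^ 2 + 18 * r + 17 with hb
  have hb1 : 103 ≤ b := by nlinarith
  have hfN : (f r).re ^ 2 + (f r).im ^ 2 = 17 * b ^ 2 - 63 := by
    rw [f_re, f_im, hb]; ring
  have hγ0 : γ ≠ 0 := by
    rintro rfl
    rw [mul_zero] at hγ
    have := congrArg Zsqrtd.re hγ
    rw [f_re] at this
    simp at this
    nlinarith
  have hnorm : ∀ x : G, x.norm = x.re ^ 2 + x.im ^ 2 := by
    intro x; rw [Zsqrtd.norm_def]; ring
  have Xn : ∀ a ≤ k, ∀ j : Fin s → Fin (k + 1),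
      (X t k γ a j).re ^ 2 + (X t k γ a j).im ^ 2 = 17 * b ^ 2 - 63 := by
    intro a ha j
    have h := X_map (Zsqrtd.normMonoidHom (d := -1)) (fun t => by
      show (P t).norm = (Q t).norm
      rw [norm_P, norm_Q]) t k γ a ha j
    rw [← hγ] at h
    have h' : (X t k γ a j).norm = (f r).norm := h
    rw [hnorm, hnorm, hfN] at h'
    exact h'
  have Xm : ∀ a ≤ k, ∀ j : Fin s → Fin (k + 1), (4 : G) ∣ X t k γ a j - f r := by
    intro a ha j
    have h := X_map (Ideal.Quotient.mk (Ideal.span {(4 : G)})).toMonoidHom (fun t => mod4 t)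
      t k γ a ha j
    rw [← hγ] at h
    have h' : (Ideal.Quotient.mk (Ideal.span {(4 : G)})) (X t k γ a j)
      = (Ideal.Quotient.mk (Ideal.span {(4 : G)})) (f r) := h
    rw [Ideal.Quotient.eq, Ideal.mem_span_singleton] at h'
    exact h'
  have Xrot : ∀ a ≤ k, ∀ j : Fin s → Fin (k + 1),
      GaussianInt.toComplex (X t k γ a j) = GaussianInt.toComplex (X t k γ 0 j) * w ^ a := by
    intro a ha j
    have hk : k = (k - a) + a := by omega
    unfold X
    simp only [map_mul, map_pow, hQw, Nat.sub_zero, pow_zero, mul_one]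
    have h1 : GaussianInt.toComplex (P (t s)) ^ k
        = GaussianInt.toComplex (P (t s)) ^ (k - a) * GaussianInt.toComplex (P (t s)) ^ a := by
      rw [← pow_add, ← hk]
    rw [h1, mul_pow]
    ring
  have hgood : ∀ (v : Fin ((k + 1) / L)) (j : Fin s → Fin (k + 1)), ∃ a : ℕ, (v : ℕ) * L ≤ a ∧
      a < (v : ℕ) * L + L ∧ a ≤ k ∧ Good b (X t k γ a j) := by
    intro v j
    set c : ℂ := GaussianInt.toComplex (X t k γ 0 j) with hc
    have hcn : ‖c‖ ^ 2 = ((17 * b ^ 2 - 63 : ℤ) : ℝ) := by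
      rw [Complex.sq_norm, hc, ← GaussianInt.intCast_real_norm, hnorm, Xn 0 (Nat.zero_le _) j]
    have hc0 : 0 < ‖c‖ := by
      have : (0 : ℝ) < ((17 * b ^ 2 - 63 : ℤ) : ℝ) := by
        exact_mod_cast (by nlinarith : (0 : ℤ) < 17 * b ^ 2 - 63)
      rw [← hcn] at this
      refine (norm_nonneg c).lt_of_ne' fun h => ?_
      rw [h] at this
      norm_num at this
    have hcc : (‖c‖ : ℂ) ≠ 0 := by exact_mod_cast hc0.ne'
    obtain ⟨a, ha1, ha2, ha3⟩ := hwin (c / ‖c‖) (by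
      rw [norm_div, Complex.norm_real, norm_norm, div_self hc0.ne']) ((v : ℕ) * L)
    have hak : a ≤ k := by
      have h1 : ((v : ℕ) + 1) * L ≤ ((k + 1) / L) * L := Nat.mul_le_mul_right _ v.2
      have h2 := Nat.div_mul_le_self (k + 1) L
      have h3 : ((v : ℕ) + 1) * L = (v : ℕ) * L + L := by ring
      omega
    refine ⟨a, ha1, ha2, hak, ?_⟩
    refine good_of _ b hb1 (Xn a hak j) (c / ‖c‖ * w ^ a) ‖c‖ hc0 ?_ ?_ ha3
    · rw [Xrot a hak j, ← hc]; field_simp
    · rw [norm_mul, norm_pow, hw, one_pow, mul_one, norm_div, Complex.norm_real, norm_norm,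
        div_self hc0.ne']
  choose a ha1 ha2 ha3 ha4 using hgood
  have hpt := fun (v : Fin ((k + 1) / L)) (j : Fin s → Fin (k + 1)) =>
    point r b hb hb1 (X t k γ (a v j) j) (Xm _ (ha3 v j) j) (Xn _ (ha3 v j) j) (ha4 v j)
  choose y z hy hz hz4 hy4 hyz using hpt
  set B : ℕ := b.toNat with hB
  have hBb : (B : ℤ) = b := Int.toNat_of_nonneg (by omega)
  have hinj : Function.Injective (fun vj : Fin ((k + 1) / L) × (Fin s → Fin (k + 1)) =>
      z vj.1 vj.2 + B * (y vj.1 vj.2 + B * 2)) := by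
    rintro ⟨v, j⟩ ⟨v', j'⟩ h
    simp only at h
    have hz1 : z v j = z v' j' := by
      have h1 := congrArg (· % B) h
      simpa only [Nat.add_mul_mod_self_left, Nat.mod_eq_of_lt (hz _ _)] using h1
    have hy1 : y v j = y v' j' := by
      rw [hz1] at h
      have h2 := Nat.eq_of_mul_eq_mul_left (by omega) (Nat.add_left_cancel h)
      omega
    have hX : X t k γ (a v j) j = X t k γ (a v' j') j' := by
      apply Zsqrtd.ext
      · have := hy4 v j
        have := hy4 v' j'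
        rw [hy1] at *
        linarith
      · have := hz4 v j
        have := hz4 v' j'
        rw [hz1] at *
        linarith
    obtain ⟨e1, e2⟩ := X_inj t ht k γ hγ0 _ _ (ha3 v j) (ha3 v' j') j j' hX
    have e3 : v = v' := by
      have p1 := ha1 v j
      have p2 := ha2 v j
      have p3 := ha1 v' j'
      have p4 := ha2 v' j'
      apply Fin.ext
      by_contra hne
      rcases lt_or_gt_of_ne hne with hlt | hlt
      · have : ((v : ℕ) + 1) * L ≤ (v' : ℕ) * L := Nat.mul_le_mul_right _ hlt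
        have h3 : ((v : ℕ) + 1) * L = (v : ℕ) * L + L := by ring
        omega
      · have : ((v' : ℕ) + 1) * L ≤ (v : ℕ) * L := Nat.mul_le_mul_right _ hlt
        have h3 : ((v' : ℕ) + 1) * L = (v' : ℕ) * L + L := by ring
        omega
    rw [e2, e3]
  refine ⟨B, by omega, ?_, ?_, Finset.univ.image (fun vj : Fin ((k + 1) / L) ×
    (Fin s → Fin (k + 1)) => z vj.1 vj.2 + B * (y vj.1 vj.2 + B * 2)), ?_, ?_⟩
  · rw [hBb]; nlinarith
  · rw [hBb]
    have h1 : N ^ (2 * k) = (N ^ k) ^ 2 := by rw [← pow_mul, mul_comm]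
    rw [h1]
    have h2 : r ^ 2 ≤ (2 * N ^ k) ^ 2 := by
      apply pow_le_pow_left₀ (by omega) hr2
    nlinarith
  · rw [Finset.card_image_of_injective _ hinj]
    simp
  · intro x hx
    obtain ⟨⟨v, j⟩, -, rfl⟩ := Finset.mem_image.1 hx
    have hBpos : 0 < B := by omega
    have hpos : 0 < B * (y v j + B * 2) := Nat.mul_pos hBpos (by omega)
    exact ⟨Nat.add_pos_right _ hpos, fixed _ _ _ (by omega) (hy _ _) (hz _ _) (hyz _ _)⟩

lemma lt_C {b : ℕ} (S : Finset ℕ) (h : ∀ a ∈ S, 0 < a ∧ E b a = a) :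
    (S.card : ℕ∞) ≤ {a : ℕ | 0 < a ∧ E b a = a}.encard ∧ (S.card : ℕ∞) ≤ C b := by
  constructor
  · rw [← Set.encard_coe_eq_coe_finsetCard]
    exact Set.encard_le_encard fun a ha => h a ha
  · have h1 : ((S : Set ℕ).image fun a => ({a} : Set ℕ)) ⊆ {S : Set ℕ | IsCycle b S} := by
      rintro _ ⟨a, ha, rfl⟩
      exact ⟨0, fun _ => a, fun u v _ => Subsingleton.elim (α := Fin 1) u v,
        fun _ => (h a ha).1, fun _ => (h a ha).2, by simp⟩
    have h2 : ((S : Set ℕ).image fun a => ({a} : Set ℕ)).encard = (S.card : ℕ∞) := by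
      rw [Set.InjOn.encard_image (fun a _ c _ hac => Set.singleton_injective hac),
        Set.encard_coe_eq_coe_finsetCard]
    rw [← h2]
    exact Set.encard_le_encard h1

/-- **Theorem.** The number of fixed points of the base-`b` elated function, hence the number
`C(b)` of its cycles, exceeds every fixed power of `log b` for arbitrarily large `b`. -/
theorem result :
    (∀ M : ℕ, ∃ b : ℕ, 2 ≤ b ∧ (M : ℕ∞) < C b) ∧
    ∀ A B : ℕ, ∃ b : ℕ, B ≤ b ∧ 2 ≤ b ∧ ∃ n : ℕ, Real.log b ^ A < n ∧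
      (n : ℕ∞) ≤ {a : ℕ | 0 < a ∧ E b a = a}.encard ∧ (n : ℕ∞) ≤ C b := by
  have main : ∀ A B : ℕ, ∃ b : ℕ, B ≤ b ∧ 2 ≤ b ∧ ∃ n : ℕ, Real.log b ^ A < n ∧
      (n : ℕ∞) ≤ {a : ℕ | 0 < a ∧ E b a = a}.encard ∧ (n : ℕ∞) ≤ C b := by
    intro A B
    obtain ⟨N, L, hN, hL, hk⟩ := many A
    have hNr : (2 : ℝ) ≤ (N : ℝ) := by exact_mod_cast hN
    set c : ℝ := Real.log 412 + 2 * Real.log N with hc
    have hc1 : 0 ≤ Real.log 412 := Real.log_nonneg (by norm_num)
    have hc2 : 0 ≤ Real.log N := Real.log_nonneg (by linarith)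
    have hc0 : 0 ≤ c := by positivity
    set W : ℕ := ⌈c ^ A⌉₊ + 1 + B with hW
    have hW1 : c ^ A < (W : ℝ) := by
      have := Nat.le_ceil (c ^ A)
      rw [hW]; push_cast
      have hB : (0 : ℝ) ≤ B := Nat.cast_nonneg B
      linarith
    have hLW : 1 ≤ L * W := Nat.mul_pos hL (by omega)
    obtain ⟨b, hb, hb1, hb2, S, hS, hfix⟩ := hk (L * W - 1)
    have hkk : L * W - 1 + 1 = L * W := by omega
    rw [hkk, Nat.mul_div_cancel_left _ hL] at hS
    have hWL : W ≤ L * W := Nat.le_mul_of_pos_left _ hL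
    refine ⟨b, ?_, by omega, S.card, ?_, (lt_C S hfix).1, (lt_C S hfix).2⟩
    · have h1 : B ≤ L * W - 1 := by omega
      have h2 : L * W - 1 < 2 ^ (L * W - 1) := Nat.lt_two_pow_self
      have h3 : (2 : ℤ) ^ (L * W - 1) ≤ N ^ (L * W - 1) := pow_le_pow_left₀ (by norm_num) hN _
      have h4 : ((2 ^ (L * W - 1) : ℕ) : ℤ) ≤ (b : ℤ) := by push_cast; linarith
      have h5 : 2 ^ (L * W - 1) ≤ b := by exact_mod_cast h4
      omega
    · have hbr : (b : ℝ) ≤ 412 * (N : ℝ) ^ (2 * (L * W - 1)) := by exact_mod_cast hb2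
      have hb0 : (0 : ℝ) < b := by
        have : 0 < b := by omega
        exact_mod_cast this
      have hlog : Real.log b ≤ c * ((L * W : ℕ) : ℝ) := by
        have h1 := Real.log_le_log hb0 hbr
        rw [Real.log_mul (by norm_num) (by positivity), Real.log_pow] at h1
        have h2 : ((2 * (L * W - 1) : ℕ) : ℝ) ≤ 2 * ((L * W : ℕ) : ℝ) := by
          have : 2 * (L * W - 1) ≤ 2 * (L * W) := by omega
          exact_mod_cast this
        have h3 : (1 : ℝ) ≤ ((L * W : ℕ) : ℝ) := by exact_mod_cast hLW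
        have h4 : ((2 * (L * W - 1) : ℕ) : ℝ) * Real.log N ≤ 2 * ((L * W : ℕ) : ℝ) * Real.log N :=
          mul_le_mul_of_nonneg_right h2 hc2
        have h5 : Real.log 412 ≤ Real.log 412 * ((L * W : ℕ) : ℝ) := le_mul_of_one_le_right hc1 h3
        rw [hc]
        linarith
      have hlog0 : 0 ≤ Real.log b := Real.log_nonneg (by
        have : 1 ≤ b := by omega
        exact_mod_cast this)
      calc Real.log b ^ A ≤ (c * ((L * W : ℕ) : ℝ)) ^ A := pow_le_pow_left₀ hlog0 hlog A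
        _ = c ^ A * ((L * W : ℕ) : ℝ) ^ A := mul_pow _ _ _
        _ < W * ((L * W : ℕ) : ℝ) ^ A := by
            apply mul_lt_mul_of_pos_right hW1
            have h3 : (0 : ℝ) < ((L * W : ℕ) : ℝ) := by exact_mod_cast (by omega : 0 < L * W)
            positivity
        _ = (S.card : ℝ) := by rw [hS]; push_cast; ring
  refine ⟨fun M => ?_, main⟩
  obtain ⟨b, hb1, hb2, n, hn, -, hC⟩ := main 1 ⌈Real.exp M⌉₊
  refine ⟨b, hb2, lt_of_lt_of_le ?_ hC⟩
  have h1 : Real.exp M ≤ b := (Nat.le_ceil _).trans (by exact_mod_cast hb1)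
  have h2 : (M : ℝ) ≤ Real.log b := by
    rw [Real.le_log_iff_exp_le (by linarith [Real.exp_pos (M : ℝ)])]; exact h1
  rw [pow_one] at hn
  have h3 : (M : ℝ) < n := lt_of_le_of_lt h2 hn
  have h4 : M < n := by exact_mod_cast h3
  exact_mod_cast h4

end Pool.Agent.Results.MP_096971_nt.PowersOfLog
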